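import Pool.Agent.Helper58.AR.Over

/-!
Asymptotic property C for direct unions of groups: unions of linear groups of unbounded degree, such as the
countable subgroups of `GL_∞(K)`, `K` a field of positive characteristic or a field of algebraic numbers,
and the infinite braid group.
-/

set_option autoImplicit false

namespace Pool.Agent.Results.MP_2c6f0d_gt.LinearUnions

open Pool.Agent.Helper58.LU

universe u v w

open Classical in
/-- Let `G` be a group with a proper left-invariant metric. If for every finite subset `T` there are
finitely many homomorphisms `φ i : G → H i`, whose common kernel meets the subgroup generated by `T` in a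
finite set, and for every `i` the group `H i` embeds in the group of units of a locally finite-dimensional
algebra over a field of positive characteristic or over a field of algebraic numbers, or the image of `T`
satisfies `LinearOver` or `UniformOver`, then all finitely generated subgroups of `G` have finite asymptotic
dimension and `G` has asymptotic property C, with a number of families which depends on the first radius
only. In particular this holds for the infinite braid group. -/
theorem result :
    (∀ (G : Type v) [Group G] [MetricSpace G], ProperInvariant G →
      (∀ T : Finset G, ∃ (n : ℕ) (H : Fin n → Type w) (_ : ∀ i, Group (H i)) (φ : ∀ i, G →* H i),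
        (∀ i, InUnits.{u, w} (H i) ∨ LinearOver.{u} (T.image (φ i)) ∨
          UniformOver (T.image (φ i))) ∧
          {g : G | g ∈ Subgroup.closure (T : Set G) ∧ ∀ i, φ i g = 1}.Finite) →
      UniformAPC G) ∧
    (∀ [MetricSpace (PresentedGroup braidRels)], ProperInvariant (PresentedGroup braidRels) →
      UniformAPC (PresentedGroup braidRels)) := by
  constructor
  · intro G _ _ hG h
    refine Pool.Agent.Helper58.GI.conclusion_of_closure hG.1 hG.2 fun T => ?_
    obtain ⟨n, H, _, φ, h1, h2⟩ := h T
    refine Pool.Agent.Helper58.GI.thin_of_homs T φ (fun i => ?_) h2
    rcases h1 i with h3 | h3 | h3
    · exact thin_of_inUnits h3 _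
    · exact thin_of_linearOver _ h3
    · exact thin_of_uniformOver _ h3
  · intro _ hG
    obtain ⟨K, _, hK⟩ := Pool.Agent.Helper58.AR.properUnionA_braid
    exact Pool.Agent.Helper58.GI.conclusion_of_closure hG.1 hG.2 fun T =>
      Pool.Agent.Helper58.AR.thin_of_properUnionA hK T

end Pool.Agent.Results.MP_2c6f0d_gt.LinearUnions
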