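import Pool.Agent.Helper58.GI.Assemble

/-!
Asymptotic property C for direct unions of groups: unions of linear groups of unbounded degree.
The group `G` may be any countable subgroup of `GL_∞(K)`, `K` a field of positive characteristic.
-/

set_option autoImplicit false

namespace Pool.Agent.Results.MP_2c6f0d_gt.UnitGroups

open Pool.Agent.Helper75.Apc Pool.Agent.Helper61.Apc Pool.Agent.Helper58.GI

universe u v w

/-- `G` is a group with a proper left-invariant metric all of whose finitely generated subgroups
have finite asymptotic dimension, and `G` has asymptotic property C, the number of families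
depending on the first radius only. -/
def Conclusion (G : Type v) [Group G] [MetricSpace G] : Prop :=
  (∀ H : Subgroup G, H.FG → ∃ t : ℕ, ∀ r : ℝ, HasFamilies H (fun _ => r) t) ∧
  ∃ n : ℝ → ℕ, ∀ R : ℕ → ℝ, (∀ i, 0 < R i) → Monotone R → HasFamilies G R (n (R 0))

open Classical in
/-- (1) The criterion: if for every finite subset `T` there are finitely many homomorphisms
`φ i : G → H i`, whose common kernel meets the subgroup generated by `T` in a finite set, and for
every `i` the image of `T` satisfies `UniformOver` or `PolyOver`, then the conclusion holds.
(2) The linear case: if for every finite subset `T` there are finitely many homomorphisms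
from `G` to groups of linear type (for instance unit groups of locally finite-dimensional algebras over
fields of positive characteristic), whose common kernel meets the subgroup generated by `T` in a
finite set, then the conclusion holds. -/
theorem result :
    (∀ (G : Type v) [Group G] [MetricSpace G],
      (∀ a b c : G, dist (a * b) (a * c) = dist b c) →
      (∀ r : ℝ, (Metric.closedBall (1 : G) r).Finite) →
      (∀ T : Finset G, ∃ (n : ℕ) (H : Fin n → Type w) (_ : ∀ i, Group (H i)) (φ : ∀ i, G →* H i),
        (∀ i, UniformOver (T.image (φ i)) ∨ PolyOver.{u} (T.image (φ i))) ∧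
          {g : G | g ∈ Subgroup.closure (T : Set G) ∧ ∀ i, φ i g = 1}.Finite) →
      Conclusion G) ∧
    (∀ (G : Type v) [Group G] [MetricSpace G],
      (∀ a b c : G, dist (a * b) (a * c) = dist b c) →
      (∀ r : ℝ, (Metric.closedBall (1 : G) r).Finite) →
      (∀ T : Finset G, ∃ (n : ℕ) (H : Fin n → Type w) (_ : ∀ i, Group (H i)) (φ : ∀ i, G →* H i),
        (∀ i, LinType.{u, w} (H i)) ∧
          {g : G | g ∈ Subgroup.closure (T : Set G) ∧ ∀ i, φ i g = 1}.Finite) →
      Conclusion G) := by
  constructor
  · intro G _ _ hinv hprop h
    refine conclusion_of_closure hinv hprop fun T => ?_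
    obtain ⟨n, H, _, φ, h1, h2⟩ := h T
    refine thin_of_homs T φ (fun i => ?_) h2
    rcases h1 i with h3 | h3
    · exact Pool.Agent.Helper65.TH.thin_of_uniform _ h3
    · exact thin_of_polyOver _ h3
  · intro G _ _ hinv hprop h
    refine conclusion_of_closure hinv hprop fun T => ?_
    obtain ⟨n, H, _, φ, h1, h2⟩ := h T
    exact thin_of_homs T φ (fun i => thin_of_linType (h1 i) _) h2

end Pool.Agent.Results.MP_2c6f0d_gt.UnitGroups
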